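import Pool.Agent.Lib.MP_8312d7.Final2

/-!
Complete evaluation modulo `p²` of the two sums `S₁(p)`, `S₂(p)` of `MP_8312d7_nt` for all primes
`p ≡ 1 (mod 4)`; the displayed sign of the question is correct exactly when `12 ∣ p - 5` or `3 ∣ x`.
The definitions `gbinom`, `S₁`, `S₂`, `CongSq`, `Displayed` are in
`Pool/Agent/Lib/MP_8312d7/Defs.lean`.
-/

namespace Pool.Agent.Results.MP_8312d7_nt.SumsModPSq

open Pool.Agent.Lib.MP_8312d7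

/-- For every prime `p ≡ 1 (mod 4)` and all integers `x` odd, `y` with `p = x² + y²`:
`S₁(p) ≡ (p/3) S₂(p) (mod p²)`; if `12 ∣ p - 1` then
`S₁(p) ≡ ± (-1)^((p-1)/4 + (x+1)/2) (2x - p/(2x)) (mod p²)` with the sign `+` if `3 ∣ x` and `-` if
`3 ∤ x`; if `12 ∣ p - 5` and `y ≡ x (mod 3)` then
`S₁(p) ≡ (-1)^((p-1)/4 + (x-1)/2) (2y - p/(2y)) (mod p²)`; and the displayed statement of the
question holds for `(p, x)` if and only if `12 ∣ p - 5` or `3 ∣ x`. In particular the displayed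
statement is not true for all primes `p ≡ 1 (mod 4)`. -/
theorem result :
    (∀ p : ℕ, p.Prime → p % 4 = 1 → ∀ x y : ℤ, Odd x → (p : ℤ) = x ^ 2 + y ^ 2 →
      CongSq p (S₁ p) ((legendreSym 3 (p : ℤ) : ℚ) * S₂ p) ∧
      ((12 : ℤ) ∣ (p : ℤ) - 1 → (3 : ℤ) ∣ x →
        CongSq p (S₁ p) ((-1 : ℚ) ^ (((p : ℤ) - 1) / 4 + (x + 1) / 2) * (2 * x - p / (2 * x)))) ∧
      ((12 : ℤ) ∣ (p : ℤ) - 1 → ¬ (3 : ℤ) ∣ x →
        CongSq p (S₁ p) (-((-1 : ℚ) ^ (((p : ℤ) - 1) / 4 + (x + 1) / 2) * (2 * x - p / (2 * x))))) ∧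
      ((12 : ℤ) ∣ (p : ℤ) - 5 → (3 : ℤ) ∣ y - x →
        CongSq p (S₁ p) ((-1 : ℚ) ^ (((p : ℤ) - 1) / 4 + (x - 1) / 2) * (2 * y - p / (2 * y)))) ∧
      (Displayed p x ↔ ((12 : ℤ) ∣ (p : ℤ) - 5 ∨ (3 : ℤ) ∣ x))) ∧
    ¬ (∀ p : ℕ, p.Prime → p % 4 = 1 → ∀ x y : ℤ, Odd x → (p : ℤ) = x ^ 2 + y ^ 2 →
      Displayed p x) :=
  final_statement

end Pool.Agent.Results.MP_8312d7_nt.SumsModPSq
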